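import Mathlib

/-!
Gauge functions and Hausdorff measures of arbitrary subsets of the line.
-/

set_option autoImplicit false

namespace Pool.Agent.Lib.B87

open Set MeasureTheory
open scoped ENNReal

/-- gauge function: nondecreasing and right-continuous on `[0, ∞)`, zero at `0`, positive after -/
structure Gauge (f : ℝ → ℝ) : Prop where
  mono : MonotoneOn f (Ici 0)
  cont : ∀ t, 0 ≤ t → ContinuousWithinAt f (Ici t) t
  zero : f 0 = 0
  pos : ∀ t, 0 < t → 0 < f t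

/-- `H^f_δ (A)` -/
noncomputable def Hd (f : ℝ → ℝ) (δ : ℝ) (A : Set ℝ) : ℝ≥0∞ :=
  ⨅ (U : ℕ → Set ℝ) (_ : A ⊆ ⋃ i, U i) (_ : ∀ i, Metric.ediam (U i) ≤ ENNReal.ofReal δ),
    ∑' i, ENNReal.ofReal (f (Metric.diam (U i)))

/-- `H^f (A)` -/
noncomputable def H (f : ℝ → ℝ) (A : Set ℝ) : ℝ≥0∞ := ⨆ (δ : ℝ) (_ : 0 < δ), Hd f δ A

/-- every subset of `X` of positive measure has a subset of finite positive measure -/
def SubFin (f : ℝ → ℝ) (X : Set ℝ) : Prop :=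
  ∀ A ⊆ X, 0 < H f A → ∃ A₀ ⊆ A, 0 < H f A₀ ∧ H f A₀ < ∞

/-- `X` is covered by countably many sets of finite measure -/
def SigFin (f : ℝ → ℝ) (X : Set ℝ) : Prop :=
  ∃ S : Set (Set ℝ), S.Countable ∧ X ⊆ ⋃₀ S ∧ ∀ U ∈ S, H f U < ∞

/-- null for every finite Borel measure without atoms -/
def UNull (A : Set ℝ) : Prop :=
  ∀ μ : Measure ℝ, IsFiniteMeasure μ → (∀ x, μ {x} = 0) → μ A = 0

end Pool.Agent.Lib.B87
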