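import Pool.Agent.Lib.MP_b87f19_lc.Defs

/-!
Universally null selectors over a non-null set (the construction of Grzegorek).
-/

set_option autoImplicit false

namespace Pool.Agent.Lib.B87

open Set Filter MeasureTheory Topology
open scoped ENNReal NNReal Cardinal

lemma cdf0 (μ : Measure ℝ) [IsFiniteMeasure μ] (h0 : ∀ x, μ {x} = 0) (X : Set ℝ)
    (hX : volume ((fun x => μ.real (Iic x)) '' X) = 0) : μ X = 0 := by
  have : NullSingletonClass μ := ⟨h0⟩
  have mono : Monotone fun x => μ.real (Iic x) := fun x y h => measureReal_mono (Iic_subset_Iic.2 h)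
  have le : μ.map (fun x => μ.real (Iic x)) ≤ volume := by
    rw [← hausdorffMeasure_real]
    refine Measure.le_hausdorffMeasure _ _ 1 one_pos fun s hs => ?_
    have bd : Bornology.IsBounded s :=
      Metric.isBounded_iff_ediam_ne_top.2 (ne_top_of_le_ne_top ENNReal.one_ne_top hs)
    rw [ENNReal.rpow_one, Real.ediam_eq bd]
    refine (measure_mono (subset_Icc_csInf_csSup bd.bddBelow bd.bddAbove)).trans ?_
    rw [Measure.map_apply mono.measurable measurableSet_Icc,
      (mono.measurable measurableSet_Icc).measure_eq_iSup_isCompact]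
    refine iSup_le fun K => iSup₂_le fun hK cK => ?_
    rcases K.eq_empty_or_nonempty with rfl | ne
    · simp
    have a := (hK (cK.sInf_mem ne)).1
    have b := (hK (cK.sSup_mem ne)).2
    have l : sInf K ≤ sSup K := csInf_le_csSup ne cK.bddBelow cK.bddAbove
    have e : μ.real (Iic (sSup K)) = μ.real (Iic (sInf K)) + μ.real (Ioc (sInf K) (sSup K)) := by
      rw [← measureReal_union (Iic_disjoint_Ioc le_rfl) measurableSet_Ioc, Iic_union_Ioc_eq_Iic l]
    refine (measure_mono (subset_Icc_csInf_csSup cK.bddBelow cK.bddAbove)).trans ?_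
    rw [← measure_congr Ioc_ae_eq_Icc, ← ofReal_measureReal]
    exact ENNReal.ofReal_le_ofReal (by linarith)
  refine measure_mono_null ((subset_preimage_image (fun x => μ.real (Iic x)) X).trans
    (preimage_mono (subset_toMeasurable (volume : Measure ℝ) _))) ?_
  rw [← Measure.map_apply mono.measurable (measurableSet_toMeasurable _ _)]
  exact le_antisymm ((le _).trans (by rw [measure_toMeasurable, hX])) zero_le

lemma cdf1 (μ : Measure ℝ) [IsFiniteMeasure μ] (h0 : ∀ x, μ {x} = 0) {c : ℝ} (hc : 0 < c) :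
    ∃ F : ℝ → ℝ, (∀ x, F x ∈ Icc 0 c) ∧ ∀ X, volume (F '' X) = 0 → μ X = 0 := by
  obtain ⟨r, r0, r1⟩ := ENNReal.exists_nnreal_pos_mul_lt (measure_ne_top μ univ)
    (ENNReal.ofReal_pos.2 hc).ne'
  refine ⟨fun x => (r • μ).real (Iic x), fun x => ⟨measureReal_nonneg,
    ENNReal.toReal_le_of_le_ofReal hc.le ((measure_mono (subset_univ _)).trans r1.le)⟩,
    fun X hX => ?_⟩
  simpa [r0.ne'] using cdf0 (r • μ) (fun x => by simp [h0]) X hX

/-- the `G_δ` set coded by a sequence of bits -/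
def code (y : ℕ → Bool) : Set ℝ :=
  ⋂ n : ℕ, ⋃ p : ℚ × ℚ, {x | x ∈ Ioo (p.1 : ℝ) p.2 ∧ y (Encodable.encode (n, p)) = true}

lemma ex_code {S : Set ℝ} (h : volume S = 0) : ∃ y, S ⊆ code y ∧ volume (code y) = 0 := by
  classical
  choose U U1 U2 U3 using fun n : ℕ => S.exists_isOpen_lt_of_lt (μ := volume) ((n : ℝ≥0∞) + 1)⁻¹
    (by simp [h])
  refine ⟨fun k => decide (∃ u : ℕ × ℚ × ℚ, Encodable.encode u = k ∧
    Ioo (u.2.1 : ℝ) u.2.2 ⊆ U u.1), fun x hx => mem_iInter.2 fun n => ?_, ?_⟩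
  · obtain ⟨a, b, ⟨h1, h2⟩, h3⟩ := mem_nhds_iff_exists_Ioo_subset.1 ((U2 n).mem_nhds (U1 n hx))
    obtain ⟨p, p1, p2⟩ := exists_rat_btwn h1
    obtain ⟨q, q1, q2⟩ := exists_rat_btwn h2
    exact mem_iUnion.2 ⟨(p, q), ⟨p2, q1⟩, decide_eq_true
      ⟨(n, p, q), rfl, (Ioo_subset_Ioo p1.le q2.le).trans h3⟩⟩
  · refine le_antisymm (ENNReal.le_of_forall_pos_le_add fun ε hε _ => ?_) zero_le
    obtain ⟨n, hn⟩ := ENNReal.exists_inv_nat_lt (ENNReal.coe_ne_zero.2 hε.ne')
    rw [zero_add]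
    refine le_trans (measure_mono (t := U n) fun x hx => ?_)
      ((U3 n).le.trans ((ENNReal.inv_le_inv.2 le_self_add).trans hn.le))
    obtain ⟨p, h1, h2⟩ := mem_iUnion.1 (mem_iInter.1 hx n)
    obtain ⟨u, e, h3⟩ := of_decide_eq_true h2
    rw [Encodable.encode_injective e] at h3
    exact h3 h1

theorem grz {c : ℝ} (hc : 0 < c) (T : ℝ → (ℕ → Bool) → ℝ) {q : ℝ → ℕ → Bool} (hq : Measurable q)
    (hT : ∀ x ∈ Icc 0 c, ∀ y, q (T x y) = y) : ∃ X ⊆ Icc 0 c, volume X ≠ 0 ∧
      ∃ g : ℝ → ℕ → Bool, UNull ((fun x => T x (g x)) '' X) := by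
  have r0 : ∀ x : ℝ, volume.restrict (Icc 0 c) {x} = 0 := fun x => measure_singleton x
  obtain ⟨X1, h1, hm⟩ := (InvImage.wf (fun X : Set ℝ => #X) Cardinal.lt_wf).has_min
    {X | ¬ UNull X} ⟨univ, fun t => by simpa [hc.not_ge] using t _ inferInstance r0⟩
  obtain ⟨μ1, _, m0, m1⟩ : ∃ μ : Measure ℝ, IsFiniteMeasure μ ∧ (∀ x, μ {x} = 0) ∧ μ X1 ≠ 0 := by
    simpa [UNull] using h1
  obtain ⟨F, F1, F2⟩ := cdf1 μ1 m0 hc
  have sub : F '' X1 ⊆ Icc 0 c := image_subset_iff.2 fun x _ => F1 x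
  have nn : volume (F '' X1) ≠ 0 := fun t => m1 (F2 _ t)
  have sm : ∀ Y : Set ℝ, #Y < #(F '' X1) → UNull Y := fun Y hY =>
    by_contra fun t => hm Y t (hY.trans_le Cardinal.mk_image_le)
  generalize F '' X1 = X at sub nn sm
  obtain ⟨r, wo, hr⟩ := Cardinal.exists_ord_eq X
  have seg : ∀ (x : X) (f : X → ℝ), UNull (f '' {y | r y x}) := fun x f =>
    sm _ (Cardinal.mk_image_le.trans_lt (Cardinal.card_typein_lt x hr))
  have : ∀ x (hx : x ∈ X), ∃ y, insert x (Subtype.val '' {y | r y ⟨x, hx⟩}) ⊆ code y ∧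
      volume (code y) = 0 := fun x hx => ex_code (by
    have := seg ⟨x, hx⟩ Subtype.val _ inferInstance r0
    rw [Measure.restrict_apply' measurableSet_Icc,
      inter_eq_left.2 ((Subtype.coe_image_subset X _).trans sub)] at this
    exact measure_union_null (measure_singleton x) this)
  choose! g g1 g2 using this
  refine ⟨X, sub, nn, g, fun μ _ μ0 => ?_⟩
  have hW : MeasurableSet {u : ℝ × ℝ | u.1 ∈ code (q u.2)} := by
    simp only [code, mem_iInter, mem_iUnion, ofPred_forall, ofPred_exists]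
    exact .iInter fun n => .iUnion fun p => (measurable_fst measurableSet_Ioo).inter
      (((measurable_pi_apply _).comp (hq.comp measurable_snd)) (measurableSet_singleton true))
  have mW := measurable_measure_prodMk_right (μ := volume) hW
  have hB := mW (measurableSet_singleton 0)
  have z : volume.prod (μ.restrict _) _ = 0 := (Measure.prod_apply_symm hW).trans
    ((lintegral_eq_zero_iff mW).2 ((ae_restrict_mem hB).mono fun p hp => hp))
  obtain ⟨x, hx, e⟩ := ((frequently_ae_mem_iff.2 nn).and_eventually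
    ((Measure.measure_prod_null hW).1 z)).exists
  replace e := (Measure.restrict_apply' hB).symm.trans e
  refine measure_mono_null ?_
    (measure_union_null (seg ⟨x, hx⟩ (fun x => T x (g x)) μ inferInstance μ0) e)
  rintro _ ⟨w, hw, rfl⟩
  have k : q (T w (g w)) = g w := hT w (sub hw) _
  have fin : x ∈ code (g w) → T w (g w) ∈ Prod.mk x ⁻¹' {u : ℝ × ℝ | u.1 ∈ code (q u.2)} ∩
      (fun y => volume ((fun x => (x, y)) ⁻¹' {u : ℝ × ℝ | u.1 ∈ code (q u.2)})) ⁻¹' {0} :=
    fun t => ⟨by simpa [k] using t, by simpa [k] using g2 w hw⟩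
  rcases trichotomous_of r ⟨w, hw⟩ ⟨x, hx⟩ with t | t | t
  · exact Or.inl ⟨_, t, rfl⟩
  · exact Or.inr (fin (g1 w hw (Or.inl (congrArg Subtype.val t).symm)))
  · exact Or.inr (fin (g1 w hw (Or.inr ⟨_, t, rfl⟩)))

end Pool.Agent.Lib.B87
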