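import Pool.Agent.Lib.MP_b87f19_lc.Scheme
import Pool.Agent.Lib.MP_b87f19_lc.Grz

/-!
An analytic set of non-σ-finite Hausdorff measure contains a universally null set of positive
Hausdorff measure.
-/

set_option autoImplicit false

namespace Pool.Agent.Lib.B87

open Set Filter MeasureTheory Topology
open scoped ENNReal NNReal

/-- the gauge on the extended half line -/
noncomputable def gg (f : ℝ → ℝ) (r : ℝ≥0∞) : ℝ≥0∞ := ENNReal.ofReal (f r.toReal)

/-- the Hausdorff measure as a Borel measure -/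
noncomputable def mu (f : ℝ → ℝ) : Measure ℝ := Measure.mkMetric (gg f)

variable {f : ℝ → ℝ}

lemma Gauge.g0 (hf : Gauge f) : gg f 0 = 0 := by simp [gg, hf.zero]

lemma Gauge.H_eq (hf : Gauge f) (A : Set ℝ) : H f A = mu f A := by
  have e : ∀ s : Set ℝ, ⨆ _ : s.Nonempty, gg f (Metric.ediam s) =
      ENNReal.ofReal (f (Metric.diam s)) := fun s => by
    rcases s.eq_empty_or_nonempty with rfl | h
    · simp [hf.zero]
    · rw [iSup_pos h]
      rfl
  simp only [mu, Measure.mkMetric_apply, e, H, Hd]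
  refine le_antisymm (iSup₂_le fun δ hδ => le_iSup₂_of_le _ (ENNReal.ofReal_pos.2 hδ) le_rfl)
    (iSup₂_le fun r hr => ?_)
  obtain ⟨δ, -, h1, h2⟩ := ENNReal.lt_iff_exists_real_btwn.1 hr
  exact le_iSup₂_of_le δ (ENNReal.ofReal_pos.1 h1) (le_iInf fun U => le_iInf₂ fun a b =>
    iInf_le_of_le U (iInf₂_le a fun i => (b i).trans h2.le))

lemma Gauge.sing (hf : Gauge f) (x : ℝ) : mu f {x} = 0 := by
  refine le_antisymm ((Measure.mkMetric_le_liminf_tsum (ι := fun _ : ℕ => Unit) (l := atTop) _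
    (fun _ => 0) tendsto_const_nhds (fun _ _ => {x}) (by simp) (by simp) _).trans ?_) zero_le
  simp [hf.g0]

lemma SigFin.mono {X Y : Set ℝ} (h : SigFin f Y) (hX : X ⊆ Y) : SigFin f X :=
  h.imp fun _ t => ⟨t.1, hX.trans t.2.1, t.2.2⟩

lemma SigFin.of_lt {X : Set ℝ} (h : H f X < ∞) : SigFin f X :=
  ⟨{X}, countable_singleton _, by simp, by simpa using h⟩

lemma SigFin.iUnion {ι : Type} [Countable ι] {X : ι → Set ℝ} (h : ∀ i, SigFin f (X i)) :
    SigFin f (⋃ i, X i) := by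
  choose S S1 S2 S3 using h
  exact ⟨⋃ i, S i, countable_iUnion S1, iUnion_subset fun i =>
    (S2 i).trans (sUnion_subset_sUnion (subset_iUnion S i)),
    fun U hU => (mem_iUnion.1 hU).elim fun i t => S3 i U t⟩

lemma SigFin.union {X Y : Set ℝ} (h : SigFin f X) (h' : SigFin f Y) : SigFin f (X ∪ Y) := by
  rw [union_eq_iUnion]
  exact .iUnion fun b => by cases b <;> assumption

/-- the dyadic index -/
noncomputable def DD (j : ℤ) (n : ℕ) (p : ℝ) : ℕ := ⌊2 ^ n * (p - j)⌋₊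

/-- the weights -/
noncomputable def vv (f : ℝ → ℝ) (n : ℕ) : ℝ≥0 := (f (2⁻¹ ^ n)).toNNReal

/-- the weight measure -/
noncomputable def ww (f : ℝ → ℝ) : Measure (ℕ × ℕ) :=
  Measure.sum fun c => (vv f c.1 : ℝ≥0∞) • Measure.dirac c

lemma Gauge.wt (hf : Gauge f) : Wt (ww f) (vv f) := by
  have p : ∀ n : ℕ, (0 : ℝ) < 2⁻¹ ^ n := fun n => by positivity
  refine ⟨fun n k => Measure.sum_smul_dirac_singleton, fun m n h => Real.toNNReal_le_toNNReal
    (hf.mono (p n).le (p m).le (pow_le_pow_of_le_one (by norm_num) (by norm_num) h)),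
    fun n => Real.toNNReal_pos.2 (hf.pos _ (p n)), fun ε hε => ?_⟩
  have t : Tendsto (fun n : ℕ => f (2⁻¹ ^ n)) atTop (𝓝 (f 0)) :=
    (hf.cont 0 le_rfl).tendsto.comp (tendsto_nhdsWithin_iff.2
      ⟨tendsto_pow_atTop_nhds_zero_of_lt_one (by norm_num) (by norm_num),
        Eventually.of_forall fun n => (p n).le⟩)
  rw [hf.zero] at t
  exact (t.eventually (ge_mem_nhds (NNReal.coe_pos.2 hε))).exists.imp
    fun n hn => Real.toNNReal_le_iff_le_coe.2 hn

variable {j : ℤ} {φ : Z → ℝ}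

lemma net_DD (hφ : Continuous φ) (hj : ∀ z, Irrational (φ z) ∧ φ z ∈ Ioo (j : ℝ) (j + 1)) :
    Net fun n z => DD j n (φ z) := by
  refine ⟨fun n => continuous_iff_continuousAt.2 fun z => ?_, fun n z => ?_, fun z => ?_⟩
  · have c : Continuous fun z => 2 ^ n * (φ z - j) := by fun_prop
    have i : Irrational (2 ^ n * (φ z - j)) := by
      simpa using ((hj z).1.sub_intCast j).natCast_mul (m := 2 ^ n) (by positivity)
    have p : 0 ≤ 2 ^ n * (φ z - j) := mul_nonneg (by positivity) (sub_nonneg.2 (hj z).2.1.le)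
    refine (continuousAt_const (y := DD j n (φ z))).congr ?_
    filter_upwards [(c.tendsto z).eventually (Ioo_mem_nhds
      ((Nat.floor_le p).lt_of_ne (i.ne_nat _).symm) (Nat.lt_floor_add_one _))] with x hx
    exact (Nat.floor_eq_on_Ico _ _ ⟨hx.1.le, hx.2⟩).symm
  · simp only [DD]
    rw [← Nat.floor_div_ofNat]
    congr 1
    ring
  · exact Nat.floor_eq_zero.2 (by linarith [(hj z).2.2])

lemma close_DD (hj : ∀ z, Irrational (φ z) ∧ φ z ∈ Ioo (j : ℝ) (j + 1)) (n : ℕ) (z z' : Z)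
    (e : DD j n (φ z) = DD j n (φ z')) : edist (φ z) (φ z') ≤ ENNReal.ofReal (2⁻¹ ^ n) := by
  have k : ∀ z z', DD j n (φ z) = DD j n (φ z') → φ z' - φ z ≤ 2⁻¹ ^ n := fun z z' e => by
    have a := Nat.floor_le (mul_nonneg (by positivity : (0 : ℝ) ≤ 2 ^ n)
      (sub_nonneg.2 (hj z).2.1.le))
    have b := Nat.lt_floor_add_one (2 ^ n * (φ z' - j))
    simp only [DD] at e
    rw [← e] at b
    rw [inv_pow, ← one_div, le_div_iff₀ (by positivity)]
    linarith
  rw [edist_dist, Real.dist_eq]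
  exact ENNReal.ofReal_le_ofReal (abs_sub_le_iff.2 ⟨k _ _ e.symm, k _ _ e⟩)

lemma tend : Tendsto (fun n : ℕ => ENNReal.ofReal (2⁻¹ ^ n)) atTop (𝓝 0) := by
  simpa using ENNReal.tendsto_ofReal (tendsto_pow_atTop_nhds_zero_of_lt_one
    (r := (2⁻¹ : ℝ)) (by norm_num) (by norm_num))

lemma Gauge.up (hf : Gauge f) (hj : ∀ z, Irrational (φ z) ∧ φ z ∈ Ioo (j : ℝ) (j + 1))
    {A : Set Z} {B : ℝ≥0∞} (hB : ∀ n, ∑' k, N (ww f) (fun n z => DD j n (φ z))
      (A ∩ cell (fun n z => DD j n (φ z)) n k) ≤ B) : H f (φ '' A) ≤ B := by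
  rw [hf.H_eq]
  exact upper hf.wt tend (close_DD hj) hf.g0 (fun n _ t h _ => ENNReal.ofReal_le_ofReal
    (hf.mono ENNReal.toReal_nonneg (by positivity : (0 : ℝ) ≤ 2⁻¹ ^ n)
      (ENNReal.toReal_le_of_le_ofReal (by positivity) h))) hB

/-- the uncountable family -/
lemma Gauge.family (hf : Gauge f) (hφ : Continuous φ)
    (hj : ∀ z, Irrational (φ z) ∧ φ z ∈ Ioo (j : ℝ) (j + 1)) (hs : ¬ SigFin f (range φ)) :
    ∃ c > 0, ∃ F P a, Fam (fun n z => DD j n (φ z)) (vv f) (Icc 0 c) F P a ∧ ¬ F.Countable := by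
  have h := net_DD hφ hj
  have up := @Gauge.up f j φ hf hj
  have cl := close_DD hj
  generalize hd : (fun n z => DD j n (φ z)) = d at h up
  replace cl : ∀ n z z', d n z = d n z' → edist (φ z) (φ z') ≤ ENNReal.ofReal (2⁻¹ ^ n) :=
    hd ▸ cl
  obtain ⟨S, hS⟩ := zorn_subset {S : Set (Set Z) |
    (∀ L ∈ S, IsCompact L ∧ N (ww f) d L ≠ 0 ∧ Add (ww f) d L) ∧
      S.Pairwise fun L L' => Disjoint (φ '' L) (φ '' L')} fun c hc ch =>
    ⟨⋃₀ c, ⟨fun L ⟨s, hs, t⟩ => (hc hs).1 L t,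
      (pairwise_sUnion ch.directedOn).2 fun s hs => (hc hs).2⟩, fun s hs => subset_sUnion_of_mem hs⟩
  have unc : ¬ S.Countable := by
    intro cS
    have := cS.to_subtype
    have mW : MeasurableSet (φ ⁻¹' ⋃ L : S, φ '' L)ᶜ := (hφ.measurable (.iUnion fun L : S =>
      ((hS.prop.1 L L.2).1.image hφ).measurableSet)).compl
    have pos : N (ww f) d (φ ⁻¹' ⋃ L : S, φ '' L)ᶜ ≠ 0 := fun t => by
      refine hs (((SigFin.iUnion (X := fun L : S => φ '' L) fun L => .of_lt ?_).union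
        (.of_lt ((up (A := (φ ⁻¹' ⋃ L : S, φ '' L)ᶜ) (B := 0) fun n => ?_).trans_lt ENNReal.zero_lt_top))).mono ?_)
      · exact (up fun n => ((hS.prop.1 L L.2).2.2.tsum h n).le).trans_lt
          ((N_cell.trans (hf.wt.val 0 0).le).trans_lt ENNReal.coe_lt_top)
      · exact (ENNReal.tsum_eq_zero.2 fun k =>
          le_antisymm ((N_mono inter_subset_left).trans t.le) zero_le).le
      · rintro _ ⟨z, rfl⟩
        exact (em _).imp id fun t => ⟨z, t, rfl⟩
    have an := mW.analyticSet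
    rw [AnalyticSet] at an
    rcases an with e | ⟨ψ, hψ, e⟩
    · exact pos (by rw [e, N_empty])
    obtain ⟨c, c0, c1⟩ := exists_between (pos_iff_ne_zero.2 pos)
    rw [← e, ← image_univ, ← N_comp] at c1
    obtain ⟨L', l1, l2⟩ := cap (h.comp hψ) c1
    rw [N_comp] at l2
    obtain ⟨L, m0, m1, m2, m3⟩ := minimal h hf.wt (l1.image hψ)
    have n0 := (c0.trans_le (l2.trans m2)).ne'
    have dj : ∀ L' ∈ S, Disjoint (φ '' L) (φ '' L') := fun L' hL' => disjoint_left.2 (by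
      rintro _ ⟨z, hz, rfl⟩ t
      exact e.le (image_subset_range _ _ (m0 hz)) (mem_iUnion.2 ⟨⟨L', hL'⟩, t⟩))
    have mem := hS.le_of_ge (y := insert L S) ⟨forall_mem_insert.2 ⟨⟨m1, n0, m3⟩, hS.prop.1⟩,
      hS.prop.2.insert fun L' hL' _ => ⟨dj L' hL', (dj L' hL').symm⟩⟩ (subset_insert _ _)
      (mem_insert _ _)
    exact n0 (by rw [image_eq_empty.1 (disjoint_self.1 (dj L mem)), N_empty])
  obtain ⟨i, hi⟩ : ∃ i : ℕ, ¬ {L ∈ S | ENNReal.ofReal (2⁻¹ ^ i) < N (ww f) d L}.Countable := by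
    by_contra! t
    refine unc ((countable_iUnion t).mono fun L hL => mem_iUnion.2 ?_)
    exact (tend.eventually (gt_mem_nhds (pos_iff_ne_zero.2 (hS.prop.1 L hL).2.1))).exists.imp
      fun i hi => ⟨hL, hi⟩
  have : ∀ L ∈ {L ∈ S | ENNReal.ofReal (2⁻¹ ^ i) < N (ww f) d L}, ∀ x ∈ Icc (0 : ℝ) (2⁻¹ ^ i), _ :=
    fun L hL x hx => path h hf.wt (hS.prop.1 L hL.1).1 (hS.prop.1 L hL.1).2.2 hx.1
      ((ENNReal.ofReal_le_ofReal hx.2).trans_lt hL.2)
  choose! P P1 P2 using this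
  refine ⟨_, by positivity, _, P, acc (ww f) d,
    ⟨fun L hL => (hS.prop.1 L hL.1).1, fun L hL L' hL' ne => ?_, P1, P2⟩, hi⟩
  obtain ⟨r, r0, r1⟩ := Metric.exists_pos_forall_lt_edist ((hS.prop.1 L hL.1).1.image hφ)
    ((hS.prop.1 L' hL'.1).1.image hφ).isClosed (hS.prop.2 hL.1 hL'.1 ne)
  obtain ⟨n, hn⟩ := (tend.eventually (gt_mem_nhds (ENNReal.coe_pos.2 r0))).exists
  exact ⟨n, fun z hz z' hz' e => (r1 _ ⟨z, hz, rfl⟩ _ ⟨z', hz', rfl⟩).not_ge
    ((cl n z z' e).trans hn.le)⟩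

/-- mass distribution principle for a dyadic bound -/
lemma Gauge.lower (hf : Gauge f) (ν : OuterMeasure ℝ)
    (hν : ∀ n k, ν {p | DD j n p = k} ≤ 4 * vv f n) (A : Set ℝ) : ν A ≤ 20 * mu f A := by
  have key : ∀ (s : Set ℝ) (n : ℕ), (∀ x ∈ s, ∀ y ∈ s, x - y ≤ 2 * 2⁻¹ ^ n) →
      ν s ≤ 20 * vv f n := by
    intro s n hs
    rcases s.eq_empty_or_nonempty with rfl | ⟨p, hp⟩
    · simp
    have a : ∀ x ∈ s, ∀ y ∈ s, DD j n x ≤ DD j n y + 2 := fun x hx y hy => by
      have t := hs x hx y hy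
      rw [inv_pow, ← div_eq_mul_inv, le_div_iff₀ (by positivity)] at t
      have u := Nat.lt_floor_add_one (2 ^ n * (y - j))
      exact Nat.le_of_lt_succ ((Nat.floor_lt' (by omega)).2 (by simp only [DD]; push_cast; linarith))
    calc _ ≤ ν (⋃ k ∈ Finset.Icc (DD j n p - 2) (DD j n p + 2), {p | DD j n p = k}) :=
          measure_mono fun x hx => mem_biUnion (Finset.mem_coe.2 (Finset.mem_Icc.2
            ⟨by have := a p hp x hx; omega, a x hx p hp⟩)) rfl
      _ ≤ _ := measure_biUnion_finset_le _ _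
      _ ≤ (Finset.Icc (DD j n p - 2) (DD j n p + 2)).card • (4 * vv f n : ℝ≥0∞) :=
          Finset.sum_le_card_nsmul _ _ _ fun k _ => hν n k
      _ ≤ 5 • (4 * vv f n : ℝ≥0∞) := nsmul_le_nsmul_left zero_le (by rw [Nat.card_Icc]; omega)
      _ = _ := by rw [nsmul_eq_mul, ← mul_assoc]; norm_num
  have le : ν ≤ OuterMeasure.mkMetric ((20 : ℝ≥0∞) • gg f) := by
    refine OuterMeasure.le_mkMetric _ _ 1 one_pos fun s hs => ?_
    have bd : Bornology.IsBounded s :=
      Metric.isBounded_iff_ediam_ne_top.2 (ne_top_of_le_ne_top ENNReal.one_ne_top hs)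
    have dm : ∀ x ∈ s, ∀ y ∈ s, x - y ≤ Metric.diam s := fun x hx y hy =>
      (le_abs_self _).trans (Metric.dist_le_diam_of_mem bd hx hy)
    rcases (Metric.diam_nonneg (s := s)).eq_or_lt with e | e
    · refine le_trans (ENNReal.le_of_forall_pos_le_add (b := 0) fun ε hε _ => ?_) zero_le
      obtain ⟨n, hn⟩ := hf.wt.small (ε / 20) (by positivity)
      refine (key s n fun x hx y hy => (dm x hx y hy).trans (e.ge.trans (by positivity))).trans ?_
      rw [zero_add]
      exact_mod_cast (le_div_iff₀' (by norm_num)).1 hn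
    · obtain ⟨n, h1, h2⟩ := exists_nat_pow_near_of_lt_one (y := (2⁻¹ : ℝ)) e
        (ENNReal.toReal_le_of_le_ofReal zero_le_one (by simpa using hs)) (by norm_num) (by norm_num)
      refine (key s (n + 1) fun x hx y hy => (dm x hx y hy).trans (h2.trans_eq (by ring))).trans
        (mul_le_mul_right (ENNReal.ofReal_le_ofReal (hf.mono ?_ e.le h1.le)) _)
      exact (by positivity : (0 : ℝ) ≤ 2⁻¹ ^ (n + 1))
  have := le A
  rwa [OuterMeasure.mkMetric_smul _ (by norm_num) (by norm_num), smul_apply,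
    OuterMeasure.coe_mkMetric] at this

theorem Gauge.core (hf : Gauge f) {X : Set ℝ} (hX : AnalyticSet X) (hs : ¬ SigFin f X) :
    ∃ A ⊆ X, UNull A ∧ H f A ≠ 0 := by
  obtain ⟨j, hj⟩ : ∃ j : ℤ, ¬ SigFin f (X ∩ ((range ((↑) : ℚ → ℝ))ᶜ ∩ Ioo (j : ℝ) (j + 1))) := by
    by_contra! t
    refine hs (((SigFin.iUnion t).union (SigFin.iUnion (X := fun q : ℚ => {(q : ℝ)}) fun q =>
      .of_lt (by simp [hf.H_eq, hf.sing]))).mono fun x hx => ?_)
    by_cases i : Irrational x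
    · exact Or.inl (mem_iUnion.2 ⟨⌊x⌋, hx, i, (Int.floor_le x).lt_of_ne (i.ne_int _).symm,
        Int.lt_floor_add_one x⟩)
    · obtain ⟨q, rfl⟩ := not_not.1 i
      exact Or.inr (mem_iUnion.2 ⟨q, rfl⟩)
  have an : AnalyticSet (X ∩ ((range ((↑) : ℚ → ℝ))ᶜ ∩ Ioo (j : ℝ) (j + 1))) := by
    rw [inter_eq_iInter]
    refine .iInter fun b => ?_
    cases b
    · exact ((countable_range _).measurableSet.compl.inter measurableSet_Ioo).analyticSet
    · exact hX
  rw [AnalyticSet] at an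
  rcases an with e | ⟨φ, hφ, e⟩
  · exact (hj ⟨∅, countable_empty, by simp [e], by simp⟩).elim
  have hz := fun z => e.le (mem_range_self z)
  obtain ⟨c, c0, F, P, a, hF, unc⟩ := hf.family hφ (fun z => (hz z).2) (e ▸ hj)
  obtain ⟨τ, n, V, t1, t2⟩ := scheme (net_DD hφ fun z => (hz z).2) hf.wt.pos hF unc
  obtain ⟨q, q1, q2⟩ := decode (DD j) (fun n => by unfold DD; fun_prop) n V
  obtain ⟨Y, y1, y2, g, y3⟩ := grz c0 (fun x y => φ (τ x y)) q1 fun x hx y => q2 _ _ (t1 x hx y)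
  refine ⟨_, image_subset_iff.2 fun x _ => (hz _).1, y3, fun t => y2 ?_⟩
  have := hf.lower (j := j) (OuterMeasure.map (fun x => φ (τ x (g x)))
    (OuterMeasure.restrict Y volume.toOuterMeasure)) (fun n k => by
      rw [OuterMeasure.map_apply, OuterMeasure.restrict_apply]
      refine le_trans (volume.mono ?_) (t2 n k)
      exact fun x hx => ⟨y1 hx.2, g x, hx.1⟩)
    ((fun x => φ (τ x (g x))) '' Y)
  rw [← hf.H_eq, t, mul_zero, OuterMeasure.map_apply, OuterMeasure.restrict_apply,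
    inter_eq_right.2 (subset_preimage_image _ _)] at this
  exact le_antisymm this zero_le

theorem Gauge.tfae (hf : Gauge f) {X : Set ℝ} (hX : AnalyticSet X) :
    [SubFin f X, SigFin f X, ∀ A ⊆ X, UNull A → H f A = 0].TFAE := by
  tfae_have 2 → 1 := by
    rintro ⟨S, s1, s2, s3⟩ A hA p
    by_contra! t
    rw [hf.H_eq] at p
    refine p.ne' (measure_mono_null (t := ⋃ U ∈ S, A ∩ U) (fun x hx => ?_)
      ((measure_biUnion_null_iff s1).2 fun U hU => by_contra fun n => ?_))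
    · obtain ⟨U, hU, u⟩ := s2 (hA hx)
      exact mem_biUnion hU ⟨hx, u⟩
    · have a := t _ inter_subset_left (hf.H_eq _ ▸ pos_iff_ne_zero.2 n)
      have b := s3 U hU
      rw [hf.H_eq] at a b
      exact b.not_ge (a.trans (measure_mono inter_subset_right))
  tfae_have 1 → 3 := by
    intro h A hA u
    by_contra n
    obtain ⟨B, hB, b0, b1⟩ := h A hA (pos_iff_ne_zero.2 n)
    rw [hf.H_eq] at b0 b1
    have := measure_mono_null hB (u ((mu f).restrict (toMeasurable (mu f) B))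
      ⟨by rwa [Measure.restrict_apply_univ, measure_toMeasurable]⟩ fun x =>
        le_antisymm ((Measure.restrict_le_self _).trans (hf.sing x).le) zero_le)
    rw [Measure.restrict_apply' (measurableSet_toMeasurable _ _),
      inter_eq_left.2 (subset_toMeasurable _ _)] at this
    exact b0.ne' this
  tfae_have 3 → 2 := fun h => by_contra fun n => by
    obtain ⟨A, a1, a2, a3⟩ := hf.core hX n
    exact a3 (h A a1 a2)
  tfae_finish

theorem Gauge.line (hf : Gauge f) :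
    SigFin f univ ↔ ¬ Tendsto (fun t => f t / t) (𝓝[>] 0) atTop := by
  refine ⟨fun ⟨S, s1, s2, s3⟩ t => ?_, fun t => ?_⟩
  · have le : ∀ C : ℝ≥0, C • volume ≤ mu f := fun C => by
      obtain ⟨δ, d0, hδ⟩ := (nhdsGT_basis (0 : ℝ)).eventually_iff.1 (t.eventually_ge_atTop C)
      refine Measure.le_mkMetric _ _ (ENNReal.ofReal (δ / 2)) (by simpa using d0) fun s hs => ?_
      refine (mul_le_mul_right (Real.volume_le_diam s) _).trans ?_
      have fin := ne_top_of_le_ne_top ENNReal.ofReal_ne_top hs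
      have b := ENNReal.toReal_le_of_le_ofReal (half_pos d0).le hs
      generalize Metric.ediam s = r at fin b
      lift r to ℝ≥0 using fin
      rcases (zero_le (a := r)).eq_or_lt with rfl | p
      · simp
      · have := (le_div_iff₀ (NNReal.coe_pos.2 p)).1 (hδ ⟨p, b.trans_lt (half_lt_self d0)⟩)
        rw [← ENNReal.coe_mul, ← ENNReal.ofReal_coe_nnreal]
        exact ENNReal.ofReal_le_ofReal this
    have z : volume (⋃ U ∈ S, U) = 0 := (measure_biUnion_null_iff s1).2 fun U hU => by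
      by_contra n
      obtain ⟨k, -, hk⟩ := ENNReal.exists_nat_pos_mul_gt n (hf.H_eq U ▸ s3 U hU).ne
      exact hk.not_ge (by simpa using le k U)
    rw [← sUnion_eq_biUnion, univ_subset_iff.1 s2] at z
    simp at z
  · obtain ⟨C, hC⟩ : ∃ C : ℝ, ∃ᶠ t in 𝓝[>] (0 : ℝ), f t / t < C := by
      simpa only [tendsto_atTop, not_forall, not_eventually, not_le] using t
    have nb := frequently_iff_neBot.1 hC
    rw [← iUnion_Icc_intCast]
    refine .iUnion fun j => .of_lt ?_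
    have e0 : ∀ᶠ t in 𝓝[>] (0 : ℝ) ⊓ 𝓟 {t | f t / t < C}, t ∈ Ioo (0 : ℝ) 1 :=
      Eventually.filter_mono inf_le_left (Ioo_mem_nhdsGT one_pos)
    rw [hf.H_eq]
    refine ((Measure.mkMetric_le_liminf_sum (ι := fun t : ℝ => Fin (⌊t⁻¹⌋₊ + 1))
      (l := 𝓝[>] (0 : ℝ) ⊓ 𝓟 {t | f t / t < C}) _ ENNReal.ofReal ?_
      (fun t i => Icc (j + i * t) (j + i * t + t)) (Eventually.of_forall fun t i => by
        simp [Real.ediam_Icc]) (e0.mono fun t ht x hx => ?_) _).trans
      (liminf_le_of_frequently_le' (x := ENNReal.ofReal (2 * C)) (Eventually.frequently ?_))).trans_lt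
      ENNReal.ofReal_lt_top
    · simpa using (ENNReal.tendsto_ofReal tendsto_id (m := id) (a := 0)).mono_left
        (inf_le_left.trans nhdsWithin_le_nhds)
    · have a := (le_div_iff₀ ht.1).1 (Nat.floor_le (div_nonneg (sub_nonneg.2 hx.1) ht.1.le))
      have b := (div_lt_iff₀ ht.1).1 (Nat.lt_floor_add_one ((x - j) / t))
      refine mem_iUnion.2 ⟨⟨⌊(x - j) / t⌋₊, Nat.lt_succ_of_le (Nat.floor_le_floor ?_)⟩,
        by simp only; linarith, by simp only; linarith⟩
      rw [← one_div]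
      exact div_le_div_of_nonneg_right (by linarith [hx.2]) ht.1.le
    · filter_upwards [e0, mem_inf_of_right (mem_principal_self _)] with t ht h
      have a : f t < C * t := (div_lt_iff₀ ht.1).1 h
      have b := (le_div_iff₀ ht.1).1 ((Nat.floor_le (inv_pos.2 ht.1).le).trans_eq (inv_eq_one_div t))
      have c : 0 < C := (div_pos (hf.pos t ht.1) ht.1).trans h
      simp only [Real.ediam_Icc, add_sub_cancel_left, gg, ENNReal.toReal_ofReal ht.1.le,
        Finset.sum_const, Finset.card_univ, Fintype.card_fin, nsmul_eq_mul]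
      rw [← ENNReal.ofReal_natCast, ← ENNReal.ofReal_mul (Nat.cast_nonneg _)]
      refine ENNReal.ofReal_le_ofReal ?_
      push_cast
      nlinarith [ht.2, Nat.cast_nonneg (α := ℝ) ⌊t⁻¹⌋₊]

lemma gauge_sqrt : Gauge Real.sqrt ∧ Tendsto (fun t => √t / t) (𝓝[>] 0) atTop := by
  refine ⟨⟨fun _ _ _ _ h => Real.sqrt_le_sqrt h, fun t _ => Real.continuous_sqrt.continuousWithinAt,
    Real.sqrt_zero, fun t => Real.sqrt_pos.2⟩, ?_⟩
  simp only [Real.sqrt_div_self]
  refine tendsto_inv_nhdsGT_zero.comp (tendsto_nhdsWithin_iff.2 ⟨?_, ?_⟩)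
  · simpa using (Real.continuous_sqrt.tendsto 0).mono_left nhdsWithin_le_nhds
  · exact eventually_mem_nhdsWithin.mono fun t => Real.sqrt_pos.2

end Pool.Agent.Lib.B87
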