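import Mathlib

/-!
Net contents on the Baire space: increasing sets lemma, capacitability, minimal compact sets.
-/

set_option autoImplicit false

namespace Pool.Agent.Lib.B87

open Set Filter MeasureTheory Topology
open scoped ENNReal NNReal

/-- the Baire space -/
abbrev Z : Type := ℕ → ℕ

/-- a binary net of clopen cells -/
structure Net (d : ℕ → Z → ℕ) : Prop where
  cont : ∀ n, Continuous (d n)
  half : ∀ n z, d n z = d (n + 1) z / 2
  zero : ∀ z, d 0 z = 0

/-- a cell of the net -/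
def cell (d : ℕ → Z → ℕ) (n k : ℕ) : Set Z := {z | d n z = k}

/-- the union of a family of cells -/
def Cov (d : ℕ → Z → ℕ) (C : Set (ℕ × ℕ)) : Set Z := {z | ∃ n, (n, d n z) ∈ C}

/-- the cells below a cell -/
def Un (d : ℕ → Z → ℕ) (n k : ℕ) : Set (ℕ × ℕ) :=
  {c | n ≤ c.1 ∧ ∃ z, d c.1 z = c.2 ∧ d n z = k}

/-- the net content -/
noncomputable def N (ω : Measure (ℕ × ℕ)) (d : ℕ → Z → ℕ) (A : Set Z) : ℝ≥0∞ :=
  ⨅ (C : Set (ℕ × ℕ)) (_ : A ⊆ Cov d C), ω C

variable {ω : Measure (ℕ × ℕ)} {d : ℕ → Z → ℕ}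

lemma ms (C : Set (ℕ × ℕ)) : MeasurableSet C := C.to_countable.measurableSet

lemma Net.nest (h : Net d) {m n : ℕ} (hm : m ≤ n) {z z' : Z} (e : d n z = d n z') :
    d m z = d m z' := by
  induction n, hm using Nat.le_induction with
  | base => exact e
  | succ n _ ih => exact ih (by rw [h.half n z, h.half n z', e])

lemma Net.comp (h : Net d) {ψ : Z → Z} (hψ : Continuous ψ) : Net fun n z => d n (ψ z) :=
  ⟨fun n => (h.cont n).comp hψ, fun n _ => h.half n _, fun _ => h.zero _⟩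

lemma Net.lt (h : Net d) (n : ℕ) (z : Z) : d n z < 2 ^ n := by
  induction n with
  | zero => simp [h.zero]
  | succ n ih => rw [h.half] at ih; omega

lemma Net.clopen (h : Net d) (n k : ℕ) : IsClopen (cell d n k) :=
  (isClopen_discrete {k}).preimage (h.cont n)

lemma Net.isOpen (h : Net d) (C : Set (ℕ × ℕ)) : IsOpen (Cov d C) := by
  rw [Cov, ofPred_exists]
  exact isOpen_iUnion fun n => (isOpen_discrete {k | (n, k) ∈ C}).preimage (h.cont n)

lemma N_le {A : Set Z} {C : Set (ℕ × ℕ)} (h : A ⊆ Cov d C) : N ω d A ≤ ω C := iInf₂_le C h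

lemma N_mono {A B : Set Z} (h : A ⊆ B) : N ω d A ≤ N ω d B :=
  le_iInf₂ fun _ hC => N_le (h.trans hC)

lemma N_empty : N ω d ∅ = 0 :=
  le_antisymm ((N_le (C := ∅) (empty_subset _)).trans_eq measure_empty) zero_le

lemma N_cell {A : Set Z} {n k : ℕ} : N ω d (A ∩ cell d n k) ≤ ω {(n, k)} :=
  N_le fun _ hz => ⟨n, by rw [hz.2]; rfl⟩

lemma N_comp (ψ : Z → Z) (A : Set Z) : N ω (fun n z => d n (ψ z)) A = N ω d (ψ '' A) := by
  simp only [N, image_subset_iff]
  rfl

lemma ex_cov (A : Set Z) {e : ℝ≥0∞} (he : e ≠ 0) : ∃ C, A ⊆ Cov d C ∧ ω C ≤ N ω d A + e := by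
  by_cases h : N ω d A = ∞
  · exact ⟨univ, fun _ _ => ⟨0, trivial⟩, by simp [h]⟩
  · obtain ⟨C, hC⟩ := iInf_lt_iff.1 (ENNReal.lt_add_right h he)
    obtain ⟨h1, h2⟩ := iInf_lt_iff.1 hC
    exact ⟨C, h1, h2.le⟩

lemma N_le_add {A B : Set Z} {C : Set (ℕ × ℕ)} (h : A ⊆ Cov d C ∪ B) :
    N ω d A ≤ ω C + N ω d B := by
  rw [N.eq_1 ω d B, ENNReal.add_iInf]
  refine le_iInf fun C' => ?_
  rw [ENNReal.add_iInf]
  refine le_iInf fun h' => (N_le (C := C ∪ C') fun z hz => ?_).trans (measure_union_le _ _)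
  rcases h hz with ⟨n, t⟩ | t
  · exact ⟨n, Or.inl t⟩
  · exact (h' t).imp fun _ t => Or.inr t

lemma N_union (A B : Set Z) : N ω d (A ∪ B) ≤ N ω d A + N ω d B := by
  rw [N.eq_1 ω d A, ENNReal.iInf_add]
  refine le_iInf fun C => ?_
  rw [ENNReal.iInf_add]
  exact le_iInf fun h => N_le_add (union_subset_union_left _ h)

/-- the increasing sets lemma -/
theorem inc (h : Net d) (E : ℕ → Set Z) (hE : Monotone E) :
    N ω d (⋃ i, E i) ≤ ⨆ i, N ω d (E i) := by
  classical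
  refine ENNReal.le_of_forall_pos_le_add fun ε hε hc => ?_
  obtain ⟨e, e0, e1⟩ := ENNReal.exists_pos_sum_of_countable'
    (ENNReal.half_pos (ENNReal.coe_ne_zero.2 hε.ne')).ne' ℕ
  choose C C1 C2 using fun i => ex_cov (ω := ω) (d := d) (E i) (e0 i).ne'
  have fin : ∀ i, N ω d (E i) ≠ ∞ := fun i => ((le_iSup (fun i => N ω d (E i)) i).trans_lt hc).ne
  have ef : ∀ i, e i ≤ ε / 2 := fun i => (ENNReal.le_tsum i).trans e1.le
  let T : ℕ → Set (ℕ × ℕ) := fun i => {c | c ∈ disjointed C i ∧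
    ∀ z, d c.1 z = c.2 → ∀ j < c.1, (j, d j z) ∉ ⋃ i, C i}
  have TC : ∀ i, T i ⊆ C i := fun i c hc => disjointed_subset C i hc.1
  let S : ℕ → Set (ℕ × ℕ) := fun i => {c | ∃ z, d c.1 z = c.2 ∧ ∃ n ≤ c.1, (n, d n z) ∈ T i}
  have dj : Pairwise (Function.onFun Disjoint S) := by
    intro i j hij
    refine disjoint_left.2 fun c ⟨z, z1, n, n1, t⟩ ⟨z', z2, n', n2, t'⟩ => ?_
    rw [h.nest n2 (z2.trans z1.symm)] at t'
    rcases lt_trichotomy n n' with l | rfl | l
    · exact t'.2 z rfl n l (mem_iUnion.2 ⟨_, TC _ t⟩)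
    · exact disjoint_left.1 (disjoint_disjointed C hij) t.1 t'.1
    · exact t.2 z rfl n' l (mem_iUnion.2 ⟨_, TC _ t'⟩)
  have c1 : ⋃ i, E i ⊆ Cov d (⋃ i, T i) := by
    intro z hz
    have : ∃ n, (n, d n z) ∈ ⋃ i, C i := by
      obtain ⟨i, hi⟩ := mem_iUnion.1 hz
      exact (C1 i hi).imp fun n t => mem_iUnion.2 ⟨i, t⟩
    obtain ⟨i, hi⟩ := mem_iUnion.1 ((iUnion_disjointed (f := C)).ge (Nat.find_spec this))
    refine ⟨Nat.find this, mem_iUnion.2 ⟨i, hi, fun z' e j hj => ?_⟩⟩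
    rw [h.nest hj.le e]
    exact Nat.find_min this hj
  have c2 : ∀ i, ω (T i) ≤ N ω d (E i ∩ Cov d (T i)) + e i := by
    intro i
    have a1 : N ω d (E i) ≤ ω (C i \ T i) + N ω d (E i ∩ Cov d (T i)) := N_le_add fun z hz => by
      obtain ⟨n, t⟩ := C1 i hz
      by_cases t' : (n, d n z) ∈ T i
      · exact Or.inr ⟨hz, n, t'⟩
      · exact Or.inl ⟨n, t, t'⟩
    have a2 : ω (C i \ T i) + ω (T i) = ω (C i) := by
      rw [← measure_union disjoint_sdiff_left (ms _), sdiff_union_of_subset (TC i)]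
    have a3 : ω (C i \ T i) ≠ ∞ := ne_top_of_le_ne_top (ENNReal.add_ne_top.2 ⟨fin i,
      ne_top_of_le_ne_top (by finiteness) (ef i)⟩) ((measure_mono sdiff_subset).trans (C2 i))
    refine (ENNReal.add_le_add_iff_left a3).1 ?_
    rw [a2, ← add_assoc]
    exact (C2 i).trans (by gcongr)
  have c3 : ∑' i, N ω d (E i ∩ Cov d (T i)) ≤ (⨆ i, N ω d (E i)) + ε / 2 := by
    refine ENNReal.tsum_le_of_sum_range_le fun m => ?_
    calc _ ≤ ∑ i ∈ Finset.range m, ω (C m ∩ S i) := by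
          refine Finset.sum_le_sum fun i hi => N_le fun z ⟨hz, n, t⟩ => ?_
          obtain ⟨n', t'⟩ := C1 m (hE (Finset.mem_range.1 hi).le hz)
          exact ⟨n', t', z, rfl, n, le_of_not_gt fun l => t.2 z rfl n' l (mem_iUnion.2 ⟨_, t'⟩), t⟩
      _ ≤ ω (C m) := by
          rw [← measure_biUnion_finset (fun i _ j _ hij => (dj hij).mono inter_subset_right
            inter_subset_right) fun _ _ => ms _]
          exact measure_mono (iUnion₂_subset fun _ _ => inter_subset_left)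
      _ ≤ _ := (C2 m).trans (add_le_add (le_iSup (fun i => N ω d (E i)) m) (ef m))
  calc _ ≤ ∑' i, ω (T i) := (N_le c1).trans (measure_iUnion_le _)
    _ ≤ ∑' i, N ω d (E i ∩ Cov d (T i)) + ∑' i, e i := by
        rw [← ENNReal.tsum_add]
        exact ENNReal.tsum_le_tsum c2
    _ ≤ (⨆ i, N ω d (E i)) + ε / 2 + ε / 2 := add_le_add c3 e1.le
    _ = _ := by rw [add_assoc, ENNReal.add_halves]

lemma cluster (z : ℕ → Z) (b : Z) (h : ∀ k j, j < k → z k j ≤ b j) :
    ∃ x, MapClusterPt x atTop z := by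
  have K : IsCompact (univ.pi fun j => Iic (b j + ∑ k ∈ Finset.range (j + 1), z k j)) :=
    isCompact_univ_pi fun j => (finite_Iic _).isCompact
  obtain ⟨x, -, hx⟩ := K.exists_mapClusterPt (f := atTop) (u := z) (by
    refine le_principal_iff.2 (mem_map.2 (Eventually.of_forall fun k j _ => ?_))
    rcases lt_or_ge j k with t | t
    · exact (h k j t).trans (Nat.le_add_right _ _)
    · exact (Finset.single_le_sum (f := fun k => z k j) (fun _ _ => Nat.zero_le _)
        (Finset.mem_range.2 (Nat.lt_succ_of_le t))).trans (Nat.le_add_left _ _))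
  exact ⟨x, hx⟩

/-- capacitability -/
theorem cap (h : Net d) {c : ℝ≥0∞} (hc : c < N ω d univ) : ∃ L, IsCompact L ∧ c ≤ N ω d L := by
  have st : ∀ (A : {A : Set Z // c < N ω d A}) (k : ℕ), ∃ β, c < N ω d (A.1 ∩ {z | z k ≤ β}) := by
    intro A k
    refine lt_iSup_iff.1 (A.2.trans_le ((N_mono fun z hz => ?_).trans
      (inc h (fun β => A.1 ∩ {z | z k ≤ β}) fun i j t z hz => ⟨hz.1, le_trans hz.2 t⟩)))
    exact mem_iUnion.2 ⟨z k, hz, le_refl (z k)⟩
  choose g hg using st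
  let A : ℕ → {A : Set Z // c < N ω d A} :=
    Nat.rec ⟨univ, hc⟩ fun k A => ⟨A.1 ∩ {z | z k ≤ g A k}, hg A k⟩
  have cl : ∀ k, IsClosed (A k).1 := fun k => by
    induction k with
    | zero => exact isClosed_univ
    | succ k ih => exact ih.inter (isClosed_le (continuous_apply k) continuous_const)
  have an : Antitone fun k => (A k).1 := antitone_nat_of_succ_le fun k => inter_subset_left
  have bd : ∀ k j, j < k → ∀ z ∈ (A k).1, z j ≤ g (A j) j := fun k j t z hz => (an t hz).2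
  refine ⟨⋂ k, (A k).1, (isCompact_univ_pi fun j => (finite_Iic (g (A j) j)).isCompact).of_isClosed_subset
    (isClosed_iInter cl) fun z hz j _ => bd (j + 1) j j.lt_succ_self z (mem_iInter.1 hz (j + 1)),
    le_iInf₂ fun C hC => ?_⟩
  by_contra hn
  have : ∀ k, ∃ z ∈ (A k).1, z ∉ Cov d C := fun k => not_subset.1 fun t =>
    hn ((A k).2.le.trans (N_le t))
  choose z z1 z2 using this
  obtain ⟨x, hx⟩ := cluster z _ fun k j t => bd k j t _ (z1 k)
  refine (h.isOpen C).isClosed_compl.mem_of_mapClusterPt hx (Eventually.of_forall z2)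
    (hC (mem_iInter.2 fun k => (cl k).mem_of_mapClusterPt hx ?_))
  exact (eventually_ge_atTop k).mono fun j t => an t (z1 j)

/-- the weight of a cell depends on the level only, decreases and tends to zero -/
structure Wt (ω : Measure (ℕ × ℕ)) (v : ℕ → ℝ≥0) : Prop where
  val : ∀ n k, ω {(n, k)} = v n
  anti : Antitone v
  pos : ∀ n, 0 < v n
  small : ∀ ε : ℝ≥0, 0 < ε → ∃ n, v n ≤ ε

variable {v : ℕ → ℝ≥0}

lemma Wt.le (hw : Wt ω v) {C : Set (ℕ × ℕ)} {j k n : ℕ} (h : (j, k) ∈ C) (hj : j ≤ n) :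
    (v n : ℝ≥0∞) ≤ ω C :=
  (ENNReal.coe_le_coe.2 (hw.anti hj)).trans
    ((hw.val j k).ge.trans (measure_mono (singleton_subset_iff.2 h)))

lemma rec_ge (h : Net d) (hw : Wt ω v) (A : Set Z) (n : ℕ) {i j : ℕ} (hij : i ≠ j) :
    min (v n : ℝ≥0∞) (N ω d (A ∩ cell d (n + 1) i) + N ω d (A ∩ cell d (n + 1) j)) ≤ N ω d A := by
  refine le_iInf₂ fun C hC => ?_
  by_cases t : ∃ m ≤ n, ∃ k, (m, k) ∈ C
  · obtain ⟨m, hm, k, t⟩ := t
    exact (min_le_left _ _).trans (hw.le t hm)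
  have k : ∀ i, N ω d (A ∩ cell d (n + 1) i) ≤ ω (C ∩ Un d (n + 1) i) := fun i =>
    N_le fun z hz => (hC hz.1).imp fun m u =>
      ⟨u, lt_of_not_ge fun l => t ⟨m, l, _, u⟩, z, rfl, hz.2⟩
  refine (min_le_right _ _).trans ((add_le_add (k i) (k j)).trans ?_)
  have dj : Disjoint (C ∩ Un d (n + 1) i) (C ∩ Un d (n + 1) j) :=
    disjoint_left.2 fun c ⟨_, l, z, z1, z2⟩ ⟨_, _, z', z3, z4⟩ =>
      hij (by rw [← z2, ← z4, h.nest l (z1.trans z3.symm)])
  rw [← measure_union dj (ms _)]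
  exact measure_mono (union_subset inter_subset_left inter_subset_left)

lemma repl (h : Net d) (hw : Wt ω v) {A A' : Set Z} {n k : ℕ} (hA : A ⊆ A' ∪ cell d n k)
    (hv : (v n : ℝ≥0∞) ≤ N ω d (A' ∩ cell d n k)) : N ω d A ≤ N ω d A' := by
  refine le_iInf₂ fun C hC => ?_
  by_cases t : cell d n k ⊆ Cov d C
  · exact N_le (hA.trans (union_subset hC t))
  have a : N ω d (A' ∩ cell d n k) ≤ ω (C ∩ Un d n k) := N_le fun z hz => (hC hz.1).imp fun m u =>
    ⟨u, le_of_not_gt fun l => t fun z' hz' => ⟨m, by rwa [h.nest l.le (hz'.trans hz.2.symm)]⟩,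
      z, rfl, hz.2⟩
  calc _ ≤ ω (C \ Un d n k) + N ω d (univ ∩ cell d n k) := N_le_add fun z hz => by
        by_cases u : z ∈ cell d n k
        · exact Or.inr ⟨trivial, u⟩
        · obtain ⟨m, hm⟩ := hC ((hA hz).resolve_right u)
          exact Or.inl ⟨m, hm, fun ⟨l, z', z1, z2⟩ => u ((h.nest l z1).symm.trans z2)⟩
    _ ≤ ω (C \ Un d n k) + ω (C ∩ Un d n k) := by
        gcongr
        exact N_cell.trans ((hw.val n k).le.trans (hv.trans a))
    _ = _ := measure_sdiff_add_inter _ (ms _)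

/-- the content of the traces of the cells is additive -/
def Add (ω : Measure (ℕ × ℕ)) (d : ℕ → Z → ℕ) (L : Set Z) : Prop :=
  ∀ n k, N ω d (L ∩ cell d n k) =
    N ω d (L ∩ cell d (n + 1) (2 * k)) + N ω d (L ∩ cell d (n + 1) (2 * k + 1))

/-- minimal compact sets of given content -/
theorem minimal (h : Net d) (hw : Wt ω v) {L0 : Set Z} (h0 : IsCompact L0) :
    ∃ L ⊆ L0, IsCompact L ∧ N ω d L0 ≤ N ω d L ∧ Add ω d L := by
  obtain ⟨L, l0, hL⟩ := zorn_superset_nonempty {L | IsCompact L ∧ N ω d L0 ≤ N ω d L}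
    (fun c hc ch ne => by
      have := ne.to_subtype
      obtain ⟨s, hs⟩ := ne
      have cl : ∀ i : c, IsClosed i.1 := fun i => (hc i.2).1.isClosed
      refine ⟨⋂ i : c, i.1, ⟨(hc hs).1.of_isClosed_subset (isClosed_iInter cl)
        (iInter_subset _ (⟨s, hs⟩ : c)), le_iInf₂ fun C hC => ?_⟩,
        fun s hs => iInter_subset _ (⟨s, hs⟩ : c)⟩
      obtain ⟨i, hi⟩ := exists_subset_nhds_of_isCompact' (V := fun i : c => i.1)
        (fun a b => (ch.total a.2 b.2).elim (fun t => ⟨a, le_rfl, t⟩) fun t => ⟨b, t, le_rfl⟩) (fun i => (hc i.2).1) cl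
        fun x hx => (h.isOpen C).mem_nhds (hC hx)
      exact (hc i.2).2.trans (N_le hi)) L0 ⟨h0, le_rfl⟩
  refine ⟨L, l0, hL.prop.1, hL.prop.2, fun n k => le_antisymm ((N_mono fun z hz => ?_).trans
    (N_union _ _)) (le_of_not_gt fun hn => ?_)⟩
  · have e : d (n + 1) z / 2 = k := (h.half n z).symm.trans hz.2
    rcases (by omega : d (n + 1) z = 2 * k ∨ d (n + 1) z = 2 * k + 1) with t | t
    · exact Or.inl ⟨hz.1, t⟩
    · exact Or.inr ⟨hz.1, t⟩
  have sub : ∀ (A : Set Z) (i : ℕ), i / 2 = k →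
      A ∩ cell d n k ∩ cell d (n + 1) i = A ∩ cell d (n + 1) i := fun A i hi => by
    rw [inter_assoc, inter_eq_right.2 (show cell d (n + 1) i ⊆ cell d n k from
      fun z hz => (h.half n z).trans (by rw [hz, hi]))]
  have r : ∀ A : Set Z, min (v n : ℝ≥0∞) (N ω d (A ∩ cell d (n + 1) (2 * k)) +
      N ω d (A ∩ cell d (n + 1) (2 * k + 1))) ≤ N ω d (A ∩ cell d n k) := fun A => by
    have := rec_ge h hw (A ∩ cell d n k) n (i := 2 * k) (j := 2 * k + 1) (by omega)
    rwa [sub _ _ (by omega), sub _ _ (by omega)] at this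
  have lt := lt_of_not_ge fun t => hn.not_ge ((min_eq_right t).ge.trans (r L))
  obtain ⟨ε, e0, e1⟩ := ENNReal.lt_iff_exists_add_pos_lt.1 lt
  obtain ⟨j0, hj0⟩ := hw.small (ε / 2) (by positivity)
  obtain ⟨z, hz⟩ : (L ∩ cell d n k).Nonempty := nonempty_iff_ne_empty.2 fun t => by
    have := r L
    rw [t, N_empty, min_eq_left lt.le] at this
    exact (ENNReal.coe_pos.2 (hw.pos n)).not_ge this
  let j := max j0 n
  have rm : ∀ B : Set Z, N ω d (L ∩ B) ≤ N ω d ((L \ cell d j (d j z)) ∩ B) + (ε / 2 : ℝ≥0) := by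
    intro B
    refine (N_mono (B := (L \ cell d j (d j z)) ∩ B ∪ univ ∩ cell d j (d j z))
      fun x hx => ?_).trans ((N_union _ _).trans ?_)
    · by_cases u : x ∈ cell d j (d j z)
      · exact Or.inr ⟨trivial, u⟩
      · exact Or.inl ⟨⟨hx.1, u⟩, hx.2⟩
    · gcongr
      exact N_cell.trans ((hw.val _ _).le.trans
        (ENNReal.coe_le_coe.2 ((hw.anti (le_max_left _ _)).trans hj0)))
  have big : N ω d L ≤ N ω d (L \ cell d j (d j z)) := by
    refine repl h hw (n := n) (k := k) (fun x hx => ?_) (le_trans (le_min le_rfl ?_) (r _))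
    · by_cases u : x ∈ cell d j (d j z)
      · exact Or.inr ((h.nest (le_max_right _ _) u).trans hz.2)
      · exact Or.inl ⟨hx, u⟩
    · refine (ENNReal.add_le_add_iff_right (a := ε) ENNReal.coe_ne_top).1
        (e1.le.trans ((add_le_add (rm _) (rm _)).trans_eq ?_))
      rw [add_add_add_comm, ← ENNReal.coe_add, add_halves]
  exact (hL.le_of_le (y := L \ cell d j (d j z))
    ⟨hL.prop.1.diff (h.clopen _ _).isOpen, hL.prop.2.trans big⟩ sdiff_subset hz.1).2 rfl

lemma Add.tsum (h : Net d) {L : Set Z} (hL : Add ω d L) (n : ℕ) :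
    ∑' k, N ω d (L ∩ cell d n k) = N ω d (L ∩ cell d 0 0) := by
  induction n with
  | zero =>
    refine tsum_eq_single 0 fun k hk => ?_
    rw [eq_empty_of_forall_notMem fun z (hz : z ∈ L ∩ cell d 0 k) =>
      hk (hz.2.symm.trans (h.zero z)), N_empty]
  | succ n ih =>
    rw [← ih, ← tsum_even_add_odd ENNReal.summable ENNReal.summable, ← ENNReal.tsum_add]
    exact tsum_congr fun k => (hL n k).symm

/-- the mass to the left of a cell -/
noncomputable def acc (ω : Measure (ℕ × ℕ)) (d : ℕ → Z → ℕ) (L : Set Z) (n k : ℕ) : ℝ :=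
  ∑ i ∈ Finset.range k, (N ω d (L ∩ cell d n i)).toReal

/-- the monotone parametrisation of an additive compact set -/
theorem path (h : Net d) (hw : Wt ω v) {L : Set Z} (hc : IsCompact L) (hL : Add ω d L) {x : ℝ}
    (x0 : 0 ≤ x) (x1 : ENNReal.ofReal x < N ω d L) :
    ∃ z ∈ L, ∀ n, acc ω d L n (d n z) ≤ x ∧ x ≤ acc ω d L n (d n z) + v n := by
  have le : ∀ n k, N ω d (L ∩ cell d n k) ≤ v n := fun n k => N_cell.trans (hw.val n k).le
  have fin : ∀ n k, N ω d (L ∩ cell d n k) ≠ ∞ := fun n k =>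
    ne_top_of_le_ne_top ENNReal.coe_ne_top (le n k)
  have ev : ∀ n k, acc ω d L (n + 1) (2 * k) = acc ω d L n k := fun n k => by
    induction k with
    | zero => rfl
    | succ k ih =>
      unfold acc at ih ⊢
      rw [mul_add, mul_one, Finset.sum_range_succ, Finset.sum_range_succ, ih, Finset.sum_range_succ,
        hL n k, ENNReal.toReal_add (fin _ _) (fin _ _), add_assoc]
  have st : ∀ n k, ∃ k', k' / 2 = k ∧ (acc ω d L n k ≤ x → x < acc ω d L n (k + 1) →
      acc ω d L (n + 1) k' ≤ x ∧ x < acc ω d L (n + 1) (k' + 1)) := fun n k => by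
    rcases lt_or_ge x (acc ω d L (n + 1) (2 * k + 1)) with t | t
    · exact ⟨2 * k, by omega, fun a _ => ⟨(ev n k).le.trans a, t⟩⟩
    · exact ⟨2 * k + 1, by omega, fun _ a => ⟨t, a.trans_eq (ev n (k + 1)).symm⟩⟩
  choose g g1 g2 using st
  let k : ℕ → ℕ := Nat.rec 0 g
  have hk : ∀ n, acc ω d L n (k n) ≤ x ∧ x < acc ω d L n (k n + 1) := fun n => by
    induction n with
    | zero =>
      refine ⟨x0, ?_⟩
      have e : L ∩ cell d 0 0 = L := inter_eq_left.2 fun z _ => h.zero z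
      have := fin 0 0
      simp only [acc, k, Nat.rec_zero, zero_add, Finset.sum_range_one, e] at this ⊢
      exact (ENNReal.ofReal_lt_iff_lt_toReal x0 this).1 x1
    | succ n ih => exact g2 n _ ih.1 ih.2
  have sc : ∀ n, acc ω d L n (k n + 1) = acc ω d L n (k n) + (N ω d (L ∩ cell d n (k n))).toReal :=
    fun n => Finset.sum_range_succ _ _
  obtain ⟨z, hz⟩ := IsCompact.nonempty_iInter_of_sequence_nonempty_isCompact_isClosed
    (fun n => L ∩ cell d n (k n))
    (fun n z hz => ⟨hz.1, (h.half n z).trans (by rw [hz.2]; exact g1 n _)⟩)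
    (fun n => nonempty_iff_ne_empty.2 fun t => by
      have := hk n
      rw [sc, t, N_empty] at this
      simp only [ENNReal.toReal_zero] at this
      linarith)
    (hc.inter_right (h.clopen _ _).isClosed) fun n => hc.isClosed.inter (h.clopen _ _).isClosed
  refine ⟨z, (mem_iInter.1 hz 0).1, fun n => ?_⟩
  rw [show d n z = k n from (mem_iInter.1 hz n).2]
  have := ENNReal.toReal_mono ENNReal.coe_ne_top (le n (k n))
  rw [ENNReal.coe_toReal] at this
  exact ⟨(hk n).1, by linarith [(hk n).2, sc n]⟩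

/-- upper bound for the Hausdorff measure -/
theorem upper (hw : Wt ω v) {φ : Z → ℝ} {r : ℕ → ℝ≥0∞} (hr : Tendsto r atTop (𝓝 0))
    (hφ : ∀ n z z', d n z = d n z' → edist (φ z) (φ z') ≤ r n) {g : ℝ≥0∞ → ℝ≥0∞} (g0 : g 0 = 0)
    (hg : ∀ n m t, t ≤ r n → t ≤ r m → g t ≤ v n) {A : Set Z} {B : ℝ≥0∞}
    (hB : ∀ n, ∑' k, N ω d (A ∩ cell d n k) ≤ B) : Measure.mkMetric g (φ '' A) ≤ B := by
  classical
  refine ENNReal.le_of_forall_pos_le_add fun ε hε _ => ?_
  obtain ⟨e, e0, e1⟩ := ENNReal.exists_pos_sum_of_countable' (ENNReal.coe_ne_zero.2 hε.ne') ℕ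
  choose C C1 C2 using fun n k => ex_cov (ω := ω) (d := d) (A ∩ cell d n k) (e0 k).ne'
  have dm : ∀ (n k : ℕ) (S : Set Z), S ⊆ cell d n k → Metric.ediam (φ '' S) ≤ r n :=
    fun n k S hS => Metric.ediam_image_le_iff.2 fun z hz z' hz' =>
      hφ n z z' ((hS hz).trans (hS hz').symm)
  refine (Measure.mkMetric_le_liminf_tsum (ι := fun _ => ℕ × ℕ × ℕ) _ r hr
    (fun n i => φ '' {z | z ∈ cell d n i.1 ∧ z ∈ cell d i.2.1 i.2.2 ∧ i.2 ∈ C n i.1})
    (Eventually.of_forall fun n i => dm n _ _ fun z hz => hz.1)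
    (Eventually.of_forall fun n => ?_) g).trans (liminf_le_of_frequently_le'
      (Frequently.of_forall fun n => ?_))
  · rintro _ ⟨z, hz, rfl⟩
    obtain ⟨m, hm⟩ := C1 n (d n z) ⟨hz, rfl⟩
    exact mem_iUnion.2 ⟨(d n z, m, d m z), z, ⟨rfl, rfl, hm⟩, rfl⟩
  · rw [ENNReal.tsum_prod']
    refine le_trans (ENNReal.tsum_le_tsum fun k => le_trans ?_ (C2 n k)) ?_
    · rw [← Measure.tsum_indicator_apply_singleton ω _ (ms (C n k))]
      refine ENNReal.tsum_le_tsum fun c => ?_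
      by_cases t : c ∈ C n k
      · rw [indicator_of_mem t, hw.val c.1 c.2]
        exact hg _ n _ (dm _ _ _ fun z hz => hz.2.1) (dm _ _ _ fun z hz => hz.1)
      · simp [t, g0]
    · rw [ENNReal.tsum_add]
      exact add_le_add (hB n) e1.le

end Pool.Agent.Lib.B87
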