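import Pool.Agent.Lib.MP_b87f19_lc.Net

/-!
A Cantor scheme of uncountable families of parametrised compact sets.
-/

set_option autoImplicit false

namespace Pool.Agent.Lib.B87

open Set Filter MeasureTheory Topology PiNat
open scoped ENNReal NNReal

lemma dense2 {α : Type} {F : Set α} (hF : ¬ F.Countable) {Θ : ℕ → Type} [∀ n, Countable (Θ n)]
    (ty : ∀ n, α → Θ n) : ∃ a : Bool → α, a true ≠ a false ∧
      ∀ i, a i ∈ F ∧ ∀ n, ¬ {x ∈ F | ty n x = ty n (a i)}.Countable := by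
  have bad : {a ∈ F | ∃ n, {x ∈ F | ty n x = ty n a}.Countable}.Countable := by
    refine (countable_iUnion fun n => countable_iUnion fun θ : Θ n => countable_iUnion
      fun h : {x ∈ F | ty n x = θ}.Countable => h).mono fun a ⟨ha, n, hn⟩ => ?_
    exact mem_iUnion.2 ⟨n, mem_iUnion.2 ⟨ty n a, mem_iUnion.2 ⟨hn, ha, rfl⟩⟩⟩
  have : (F \ {a ∈ F | ∃ n, {x ∈ F | ty n x = ty n a}.Countable}).Nontrivial :=
    not_subsingleton_iff.1 fun t => hF ((t.countable.union bad).mono (subset_sdiff_union _ _))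
  obtain ⟨a, ha, b, hb, e⟩ := this
  refine ⟨fun i => cond i a b, e, fun i => ?_⟩
  cases i
  · exact ⟨hb.1, fun n t => hb.2 ⟨hb.1, n, t⟩⟩
  · exact ⟨ha.1, fun n t => ha.2 ⟨ha.1, n, t⟩⟩

/-- a family of separated compact sets with monotone parametrisations -/
structure Fam (d : ℕ → Z → ℕ) (v : ℕ → ℝ≥0) (I : Set ℝ) (F : Set (Set Z)) (P : Set Z → ℝ → Z)
    (a : Set Z → ℕ → ℕ → ℝ) : Prop where
  cpt : ∀ L ∈ F, IsCompact L
  sep : ∀ L ∈ F, ∀ L' ∈ F, L ≠ L' → ∃ n, ∀ z ∈ L, ∀ z' ∈ L', d n z ≠ d n z'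
  mem : ∀ L ∈ F, ∀ x ∈ I, P L x ∈ L
  par : ∀ L ∈ F, ∀ x ∈ I, ∀ n, a L n (d n (P L x)) ≤ x ∧ x ≤ a L n (d n (P L x)) + v n

variable {d : ℕ → Z → ℕ} {v : ℕ → ℝ≥0} {I : Set ℝ} {F : Set (Set Z)} {P : Set Z → ℝ → Z}
  {a : Set Z → ℕ → ℕ → ℝ}

lemma step (h : Net d) (hv : ∀ n, 0 < v n) (hF : Fam d v I F P a)
    (E : {E // E ⊆ F ∧ ¬ E.Countable}) (j : ℕ) : ∃ (n : ℕ) (V : Set ℕ) (β : Bool → ℕ)
      (G : Bool → {E // E ⊆ F ∧ ¬ E.Countable}), j ≤ n ∧ ∀ i, (G i).1 ⊆ E.1 ∧
      (∀ L ∈ (G i).1, ∀ z ∈ L, (d n z ∈ V ↔ i = true) ∧ z j ≤ β i) ∧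
      ∀ m ≤ n, ∀ k, volume {x ∈ I | ∃ L ∈ (G i).1, d m (P L x) = k} ≤ 2 * v m := by
  have : ∀ L ∈ F, ∃ β, ∀ z ∈ L, z j ≤ β := fun L hL => by
    obtain ⟨β, hβ⟩ := ((hF.cpt L hL).image (continuous_apply j)).finite_of_discrete.bddAbove
    exact ⟨β, fun z hz => hβ ⟨z, hz, rfl⟩⟩
  choose! bd hb using this
  obtain ⟨A, ne, hA⟩ := dense2 E.2.2
    (Θ := fun n => (Fin (2 ^ n) → Prop) × ℕ × (Fin (n + 1) → Fin (2 ^ n) → ℤ))
    fun n L => (fun k => ∃ z ∈ L, d n z = k, bd L, fun m k => ⌊a L m k / v m⌋)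
  obtain ⟨n0, h0⟩ := hF.sep _ (E.2.1 (hA true).1) _ (E.2.1 (hA false).1) ne
  refine ⟨max j n0, {k | ∃ z ∈ A true, d (max j n0) z = k}, fun i => bd (A i),
    fun i => ⟨_, fun L hL => E.2.1 hL.1, (hA i).2 (max j n0)⟩, le_max_left _ _,
    fun i => ⟨fun L hL => hL.1, fun L hL z hz => ⟨?_, ?_⟩, fun m hm k => ?_⟩⟩
  · obtain ⟨z', hz', e⟩ := (congrFun (congrArg Prod.fst hL.2) ⟨_, h.lt _ z⟩).mp ⟨z, hz, rfl⟩
    cases i
    · exact iff_of_false (fun ⟨u, hu, t⟩ => h0 u hu z' hz'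
        (h.nest (le_max_right j n0) (t.trans e.symm))) Bool.false_ne_true
    · exact iff_of_true ⟨z', hz', e⟩ rfl
  · exact (hb L (E.2.1 hL.1) z hz).trans_eq (congrArg (fun t => t.2.1) hL.2)
  · have p : (0 : ℝ) < v m := hv m
    refine le_trans (measure_mono (t := Icc (⌊a (A i) m k / v m⌋ * v m : ℝ)
      (⌊a (A i) m k / v m⌋ * v m + 2 * v m)) ?_) ?_
    · rintro x ⟨hx, L, hL, e⟩
      have t : ⌊a L m k / v m⌋ = ⌊a (A i) m k / v m⌋ :=
        congrFun (congrFun (congrArg (fun t => t.2.2) hL.2) ⟨m, Nat.lt_succ_of_le hm⟩)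
          ⟨k, e ▸ (h.lt m _).trans_le (Nat.pow_le_pow_right two_pos hm)⟩
      have u := hF.par L (E.2.1 hL.1) x hx m
      have u1 := (le_div_iff₀ p).1 (Int.floor_le (a L m k / v m))
      have u2 := (div_lt_iff₀ p).1 (Int.lt_floor_add_one (a L m k / v m))
      rw [e] at u
      rw [← t]
      exact ⟨by linarith, by linarith⟩
    · rw [Real.volume_Icc, add_sub_cancel_left, ENNReal.ofReal_mul zero_le_two]
      simp

theorem scheme (h : Net d) (hv : ∀ n, 0 < v n) (hF : Fam d v I F P a) (hc : ¬ F.Countable) :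
    ∃ (τ : ℝ → (ℕ → Bool) → Z) (n : List Bool → ℕ) (V : List Bool → Set ℕ),
      (∀ x ∈ I, ∀ y j, d (n (res y j)) (τ x y) ∈ V (res y j) ↔ y j = true) ∧
      ∀ m k, volume {x ∈ I | ∃ y, d m (τ x y) = k} ≤ 4 * v m := by
  choose n V β G g0 g using step h hv hF
  let E : List Bool → {E // E ⊆ F ∧ ¬ E.Countable} :=
    List.rec ⟨F, le_rfl, hc⟩ fun i s E => G E s.length i
  have an : ∀ y, Antitone fun j => (E (res y j)).1 := fun y =>
    antitone_nat_of_succ_le fun j => (g _ _ _).1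
  have : ∀ s, ∃ L, L ∈ (E s).1 := fun s => nonempty_iff_ne_empty.2 fun t =>
    (E s).2.2 (t ▸ countable_empty)
  choose R hR using this
  have : ∀ x ∈ I, ∀ y, ∃ z, MapClusterPt z atTop fun j => P (R (res y j)) x := fun x hx y =>
    cluster _ (fun i => β (E (res y i)) (res y i).length (y i)) fun j i t => by
      have := ((g _ _ _).2.1 _ (an y t (hR _)) _ (hF.mem _ ((E _).2.1 (hR _)) x hx)).2
      rwa [res_length] at this ⊢
  choose! τ hτ using this
  have Q : ∀ x ∈ I, ∀ y m j, ∃ L ∈ (E (res y j)).1, d m (P L x) = d m (τ x y) := by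
    intro x hx y m j
    obtain ⟨i, e, hi⟩ := (((hτ x hx y).frequently (p := fun z => d m z = d m (τ x y))
      ((h.clopen m _).isOpen.mem_nhds rfl)).and_eventually (eventually_ge_atTop j)).exists
    exact ⟨_, an y hi (hR _), e⟩
  have V1 : ∀ x ∈ I, ∀ y j, d (n (E (res y j)) (res y j).length) (τ x y) ∈
      V (E (res y j)) (res y j).length ↔ y j = true := by
    intro x hx y j
    obtain ⟨L, hL, e⟩ := Q x hx y (n (E (res y j)) (res y j).length) (j + 1)
    rw [← e]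
    exact ((g _ _ _).2.1 L hL _ (hF.mem _ ((E (res y (j + 1))).2.1 hL) x hx)).1
  refine ⟨τ, fun s => n (E s) s.length, fun s => V (E s) s.length, V1, fun m k => ?_⟩
  have B : ∀ j y0, m ≤ n (E (res y0 j)) (res y0 j).length →
      volume {x ∈ I | ∃ y, res y j = res y0 j ∧ d m (τ x y) = k} ≤ 4 * v m := by
    intro j y0 hm
    have t := fun i => (g (E (res y0 j)) (res y0 j).length i).2.2 m hm k
    refine le_trans (measure_mono ?_) ((measure_union_le _ _).trans
      ((add_le_add (t true) (t false)).trans_eq (by ring)))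
    rintro x ⟨hx, y, e, e'⟩
    obtain ⟨L, hL, u⟩ := Q x hx y m (j + 1)
    rw [res_succ, e] at hL
    cases w : y j <;> rw [w] at hL
    · exact Or.inr ⟨hx, L, hL, u.trans e'⟩
    · exact Or.inl ⟨hx, L, hL, u.trans e'⟩
  have key : ∀ r j y0, m ≤ j + r →
      volume {x ∈ I | ∃ y, res y j = res y0 j ∧ d m (τ x y) = k} ≤ 4 * v m := by
    intro r
    induction r with
    | zero => exact fun j y0 hm => B j y0 (hm.trans ((res_length y0 j).ge.trans (g0 _ _)))
    | succ r ih =>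
      intro j y0 hm
      rcases le_total m (n (E (res y0 j)) (res y0 j).length) with t | t
      · exact B j y0 t
      rcases eq_empty_or_nonempty {x ∈ I | ∃ y, res y j = res y0 j ∧ d m (τ x y) = k} with
        u | ⟨x1, hx1, y1, e1, e2⟩
      · simp [u]
      refine le_trans (measure_mono ?_) (ih (j + 1) y1 (by omega))
      rintro x ⟨hx, y, e, e'⟩
      refine ⟨hx, y, ?_, e'⟩
      have a1 := V1 x hx y j
      have a2 := V1 x1 hx1 y1 j
      rw [e] at a1
      rw [e1, h.nest t (e2.trans e'.symm), a1] at a2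
      rw [res_succ, res_succ, e, e1, Bool.eq_iff_iff.2 a2]
  simpa using key m 0 (fun _ => true) (by omega)

/-- the branch can be read off by a Borel map -/
lemma decode (D : ℕ → ℝ → ℕ) (hD : ∀ n, Measurable (D n)) (n : List Bool → ℕ)
    (V : List Bool → Set ℕ) : ∃ q : ℝ → ℕ → Bool, Measurable q ∧ ∀ p y,
      (∀ j, D (n (res y j)) p ∈ V (res y j) ↔ y j = true) → q p = y := by
  classical
  let _ : MeasurableSpace (List Bool) := ⊤
  let g : List Bool × ℝ → Bool := fun u => decide (D (n u.1) u.2 ∈ V u.1)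
  have hg : Measurable g := measurable_from_prod_countable_right fun s =>
    (Measurable.of_discrete (f := fun k => decide (k ∈ V s))).comp (hD (n s))
  let br : ℕ → ℝ → List Bool := Nat.rec (fun _ => []) fun _ b p => g (b p, p) :: b p
  have hb : ∀ j, Measurable (br j) := fun j => by
    induction j with
    | zero => exact measurable_const
    | succ j ih =>
      exact (Measurable.of_discrete (f := fun u : Bool × List Bool => u.1 :: u.2)).comp
        ((hg.comp (ih.prodMk measurable_id)).prodMk ih)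
  refine ⟨fun p j => g (br j p, p), measurable_pi_lambda _ fun j =>
    hg.comp ((hb j).prodMk measurable_id), fun p y hy => ?_⟩
  have e : ∀ j, g (res y j, p) = y j := fun j => Bool.eq_iff_iff.2 (decide_eq_true_iff.trans (hy j))
  have : ∀ j, br j p = res y j := fun j => by
    induction j with
    | zero => rfl
    | succ j ih => rw [res_succ, ← e, ← ih]
  exact funext fun j => (congrArg (fun s => g (s, p)) (this j)).trans (e j)

end Pool.Agent.Lib.B87
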